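import Mathlib

/-!
# The self-referencing LZ77 size of a suffix is polynomially bounded

For every word `S` and every suffix `T` of `S` one has `zs(T) ≤ 301 * zs(S)^4`.
-/

set_option autoImplicit false

namespace Pool.Agent.Results.MP_37e11d_lc.SuffixPolynomial

universe u

section defs

variable {α : Type u}

/-- The word `S[u], ..., S[u+l-1]` (positions are counted from `0`) has an occurrence in `S` which
starts at a position `j < u`; the two occurrences may overlap. -/
def OccursBefore (S : List α) (u l : ℕ) : Prop :=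
  ∃ j < u, ∀ t < l, S[j + t]? = S[u + t]?

/-- Length of the factor which starts at position `u`: the least `l ≥ 1` such that the word of
length `l` at position `u` has no earlier occurrence, or reaches the end of `S`. -/
noncomputable def factorLength (S : List α) (u : ℕ) : ℕ :=
  sInf {l | 1 ≤ l ∧ (u + l = S.length ∨ (u + l < S.length ∧ ¬ OccursBefore S u l))}

/-- The end of the `k`-th factor of the greedy factorization. -/
noncomputable def pos (S : List α) : ℕ → ℕ
  | 0 => 0
  | k + 1 => pos S k + factorLength S (pos S k)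

/-- The number of factors of the self-referencing LZ77 factorization. -/
noncomputable def zs (S : List α) : ℕ := sInf {k | pos S k = S.length}

end defs

section basics

variable {α : Type u}

lemma fl_mem (S : List α) (u : ℕ) (hu : u < S.length) :
    factorLength S u ∈
      {l | 1 ≤ l ∧ (u + l = S.length ∨ (u + l < S.length ∧ ¬ OccursBefore S u l))} :=
  Nat.sInf_mem ⟨S.length - u, by omega, Or.inl (by omega)⟩

lemma fl_pos (S : List α) (u : ℕ) (hu : u < S.length) : 1 ≤ factorLength S u :=
  (fl_mem S u hu).1

lemma fl_eq_zero (S : List α) (u : ℕ) (hu : S.length ≤ u) : factorLength S u = 0 := by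
  unfold factorLength
  rw [Nat.sInf_eq_zero]
  right
  ext l
  simp only [Set.mem_ofPred_eq, Set.mem_empty_iff_false, iff_false]
  omega

lemma fl_le (S : List α) (u : ℕ) (hu : u ≤ S.length) : u + factorLength S u ≤ S.length := by
  rcases Nat.lt_or_ge u S.length with h | h
  · rcases (fl_mem S u h).2 with h1 | h1 <;> omega
  · rw [fl_eq_zero S u h]; omega

lemma occ_of_lt (S : List α) (u l : ℕ) (h1 : 1 ≤ l) (hl : l < factorLength S u) :
    OccursBefore S u l := by
  by_contra hcon
  have hu : u < S.length := by
    by_contra h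
    rw [fl_eq_zero S u (by omega)] at hl
    omega
  have h2 := fl_le S u hu.le
  have : factorLength S u ≤ l := Nat.sInf_le ⟨h1, Or.inr ⟨by omega, hcon⟩⟩
  omega

lemma pos_le (S : List α) (k : ℕ) : pos S k ≤ S.length := by
  induction k with
  | zero => simp [pos]
  | succ k ih => exact fl_le S _ ih

lemma pos_mono (S : List α) : Monotone (pos S) :=
  monotone_nat_of_le_succ fun k => by simp [pos]

lemma pos_lt_succ (S : List α) (k : ℕ) (h : pos S k < S.length) : pos S k < pos S (k + 1) := by
  have := fl_pos S _ h
  show pos S k < pos S k + factorLength S (pos S k)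
  omega

lemma exists_pos_eq (S : List α) : ∃ k, pos S k = S.length := by
  by_contra hcon
  push Not at hcon
  have h1 : ∀ k, k ≤ pos S k := by
    intro k
    induction k with
    | zero => omega
    | succ k ih =>
      have := pos_lt_succ S k (lt_of_le_of_ne (pos_le S k) (hcon k))
      omega
  have := h1 (S.length + 1)
  have := pos_le S (S.length + 1)
  omega

lemma pos_zs (S : List α) : pos S (zs S) = S.length :=
  Nat.sInf_mem (s := {k | pos S k = S.length}) (exists_pos_eq S)

lemma zs_le_of (S : List α) (k : ℕ) (h : S.length ≤ pos S k) : zs S ≤ k :=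
  Nat.sInf_le (le_antisymm (pos_le S k) h)

lemma zs_nil : zs ([] : List α) = 0 :=
  Nat.le_zero.1 (zs_le_of [] 0 (by simp))

lemma pos_append (X Y : List α) (k : ℕ) : pos X k ≤ pos (X ++ Y) k := by
  induction k with
  | zero => simp [pos]
  | succ k ih =>
    by_contra hcon
    push Not at hcon
    have hu' : pos X (k + 1) = pos X k + factorLength X (pos X k) := rfl
    have hv' : pos (X ++ Y) (k + 1) =
      pos (X ++ Y) k + factorLength (X ++ Y) (pos (X ++ Y) k) := rfl
    set u := pos X k with hu
    set v := pos (X ++ Y) k with hv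
    have hXle : pos X (k + 1) ≤ X.length := pos_le X (k + 1)
    have hlen : (X ++ Y).length = X.length + Y.length := by simp
    have hvlt : v < (X ++ Y).length := by omega
    have hm := fl_mem (X ++ Y) v hvlt
    set l := factorLength (X ++ Y) v with hl
    obtain ⟨hl1, hl2⟩ := hm
    have hnew : ¬ OccursBefore (X ++ Y) v l := by
      rcases hl2 with h | h
      · omega
      · exact h.2
    obtain ⟨j, hj, hjt⟩ := occ_of_lt X u (v + l - u) (by omega) (by omega)
    refine hnew ⟨j + (v - u), by omega, ?_⟩
    intro t ht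
    have h1 := hjt (v - u + t) (by omega)
    have e1 : u + (v - u + t) = v + t := by omega
    rw [e1] at h1
    rw [List.getElem?_append_left (by omega), List.getElem?_append_left (by omega)]
    rw [← h1]
    congr 1
    omega

lemma zs_append_single (X : List α) (a : α) : zs (X ++ [a]) ≤ zs X + 1 := by
  apply zs_le_of
  have h1 := pos_append X [a] (zs X)
  rw [pos_zs] at h1
  have hlen : (X ++ [a]).length = X.length + 1 := by simp
  rcases Nat.lt_or_ge (pos (X ++ [a]) (zs X)) (X ++ [a]).length with h | h
  · have := pos_lt_succ _ _ h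
    omega
  · exact h.trans (pos_mono _ (Nat.le_succ _))

lemma zs_append_copy (X Y : List α) (d : ℕ) (hd : 1 ≤ d) (hdX : d ≤ X.length)
    (h : ∀ x, X.length ≤ x → x < (X ++ Y).length → (X ++ Y)[x - d]? = (X ++ Y)[x]?) :
    zs (X ++ Y) ≤ zs X + 1 := by
  apply zs_le_of
  have h1 := pos_append X Y (zs X)
  rw [pos_zs] at h1
  have h2 : pos (X ++ Y) (zs X + 1) = pos (X ++ Y) (zs X) +
    factorLength (X ++ Y) (pos (X ++ Y) (zs X)) := rfl
  set v := pos (X ++ Y) (zs X) with hv
  rcases Nat.lt_or_ge v (X ++ Y).length with h3 | h3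
  · by_contra hcon
    push Not at hcon
    have hm := fl_mem (X ++ Y) v h3
    set l := factorLength (X ++ Y) v with hl
    obtain ⟨hl1, hl2⟩ := hm
    have hnew : ¬ OccursBefore (X ++ Y) v l := by
      rcases hl2 with h | h
      · omega
      · exact h.2
    refine hnew ⟨v - d, by omega, ?_⟩
    intro t ht
    have := h (v + t) (by omega) (by omega)
    rw [← this]
    congr 1
    omega
  · omega

lemma zs_append_infix (X Y : List α) (h : Y <:+: X) : zs (X ++ Y) ≤ zs X + 1 := by
  rcases Y.eq_nil_or_concat with rfl | ⟨_, _, hY⟩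
  · simp
  have hYpos : 1 ≤ Y.length := by rw [hY]; simp
  obtain ⟨A, B, hX⟩ := h
  have hlen : X.length = A.length + Y.length + B.length := by rw [← hX]; simp; omega
  apply zs_append_copy X Y (Y.length + B.length) (by omega) (by omega)
  intro x hx1 hx2
  have hlen2 : (X ++ Y).length = X.length + Y.length := by simp
  rw [List.getElem?_append_right hx1, List.getElem?_append_left (by omega)]
  have e1 : x - (Y.length + B.length) = A.length + (x - X.length) := by omega
  rw [e1, ← hX]
  rw [List.getElem?_append_left (by simp; omega), List.getElem?_append_right (by omega)]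
  congr 1
  rw [hX]
  omega

end basics

section words

variable {α : Type u}

/-- The word between the positions `a` and `b`. -/
def W (S : List α) (a b : ℕ) : List α := (S.drop a).take (b - a)

lemma W_length (S : List α) (a b : ℕ) (hb : b ≤ S.length) : (W S a b).length = b - a := by
  simp [W]; omega

lemma W_get (S : List α) (a b t : ℕ) (ht : t < b - a) : (W S a b)[t]? = S[a + t]? := by
  simp [W, ht]

lemma W_self (S : List α) (a : ℕ) : W S a a = [] := by simp [W]

lemma W_append (S : List α) (a b c : ℕ) (h1 : a ≤ b) (h2 : b ≤ c) :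
    W S a b ++ W S b c = W S a c := by
  unfold W
  have e : c - a = (b - a) + (c - b) := by omega
  rw [e, List.take_add, List.drop_drop]
  congr 3
  omega

lemma W_congr (S : List α) (a b a' b' : ℕ) (hb : b ≤ S.length) (hb' : b' ≤ S.length)
    (hab : b - a = b' - a') (h : ∀ t < b - a, S[a + t]? = S[a' + t]?) :
    W S a b = W S a' b' := by
  apply List.ext_getElem?
  intro t
  rcases Nat.lt_or_ge t (b - a) with ht | ht
  · rw [W_get S a b t ht, W_get S a' b' t (by omega)]
    exact h t ht
  · rw [List.getElem?_eq_none (by rw [W_length S a b hb]; exact ht),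
      List.getElem?_eq_none (by rw [W_length S a' b' hb']; omega)]

/-- periodicity in the extended block -/
lemma per_shift (S : List α) (g e d : ℕ) (hdg : d ≤ g)
    (h : ∀ x, g ≤ x → x < e → S[x - d]? = S[x]?) (x : ℕ) (hx : g - d ≤ x) :
    ∀ m, x + m * d < e → S[x + m * d]? = S[x]? := by
  intro m
  induction m with
  | zero => intro _; simp
  | succ m ih =>
    intro hm
    have e1 : x + (m + 1) * d = x + m * d + d := by ring
    rw [e1] at hm ⊢
    have h1 := h (x + m * d + d) (by omega) (by omega)
    have e2 : x + m * d + d - d = x + m * d := by omega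
    rw [e2] at h1
    rw [← h1]
    exact ih (by omega)

lemma W_shift (S : List α) (g e d : ℕ) (hdg : d ≤ g) (he : e ≤ S.length)
    (h : ∀ x, g ≤ x → x < e → S[x - d]? = S[x]?) (a b m : ℕ) (ha : g - d ≤ a) (hab : a ≤ b)
    (hb : b + m * d ≤ e) : W S (a + m * d) (b + m * d) = W S a b := by
  apply W_congr S _ _ _ _ (by omega) (by omega) (by omega)
  intro t ht
  have e1 : a + m * d + t = a + t + m * d := by omega
  rw [e1]
  exact per_shift S g e d hdg h (a + t) (by omega) m (by omega)

end words

section main

variable {α : Type u}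

open Classical in
/-- number of items of rank `< M` which occur in `X` -/
noncomputable def cnt (S : List α) (I : Finset (ℕ × ℕ)) (mu : ℕ × ℕ → ℕ) (M : ℕ) (X : List α) : ℕ :=
  (I.filter fun p => mu p < M ∧ W S p.1 p.2 <:+: X).card

lemma cnt_mono (S : List α) (I : Finset (ℕ × ℕ)) (mu : ℕ × ℕ → ℕ) (M : ℕ) (X Y : List α) :
    cnt S I mu M X ≤ cnt S I mu M (X ++ Y) := by
  classical
  apply Finset.card_le_card
  intro p hp
  simp only [Finset.mem_filter] at hp ⊢
  exact ⟨hp.1, hp.2.1, hp.2.2.trans ⟨[], Y, by simp⟩⟩

lemma cnt_new (S : List α) (I : Finset (ℕ × ℕ)) (mu : ℕ × ℕ → ℕ) (M : ℕ) (X Y : List α)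
    (q : ℕ × ℕ) (hq : q ∈ I) (hM : mu q < M) (h1 : ¬ W S q.1 q.2 <:+: X)
    (h2 : W S q.1 q.2 <:+: X ++ Y) :
    cnt S I mu M X + cnt S I mu (mu q) (X ++ Y) + 1 ≤
      cnt S I mu (mu q) X + cnt S I mu M (X ++ Y) := by
  classical
  have key : ∀ Z : List α, cnt S I mu M Z = cnt S I mu (mu q) Z +
      (I.filter fun p => (mu q ≤ mu p ∧ mu p < M) ∧ W S p.1 p.2 <:+: Z).card := by
    intro Z
    unfold cnt
    rw [← Finset.card_union_of_disjoint]
    · congr 1
      ext p
      simp only [Finset.mem_filter, Finset.mem_union]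
      constructor
      · rintro ⟨ha, hb, hc⟩
        rcases Nat.lt_or_ge (mu p) (mu q) with h | h
        · exact Or.inl ⟨ha, h, hc⟩
        · exact Or.inr ⟨ha, ⟨h, hb⟩, hc⟩
      · rintro (⟨ha, hb, hc⟩ | ⟨ha, ⟨hb, hb'⟩, hc⟩)
        · exact ⟨ha, by omega, hc⟩
        · exact ⟨ha, hb', hc⟩
    · rw [Finset.disjoint_left]
      intro p hp hp'
      simp only [Finset.mem_filter] at hp hp'
      omega
  have hlt : (I.filter fun p => (mu q ≤ mu p ∧ mu p < M) ∧ W S p.1 p.2 <:+: X).card <
      (I.filter fun p => (mu q ≤ mu p ∧ mu p < M) ∧ W S p.1 p.2 <:+: X ++ Y).card := by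
    apply Finset.card_lt_card
    rw [Finset.ssubset_iff_of_subset]
    · refine ⟨q, ?_, ?_⟩
      · simp only [Finset.mem_filter]
        exact ⟨hq, ⟨le_refl _, hM⟩, h2⟩
      · simp only [Finset.mem_filter]
        rintro ⟨_, _, h⟩
        exact h1 h
    · intro p hp
      simp only [Finset.mem_filter] at hp ⊢
      exact ⟨hp.1, hp.2.1, hp.2.2.trans ⟨[], Y, by simp⟩⟩
  rw [key X, key (X ++ Y)]
  omega

/-- The data extracted from the greedy factorization. -/
structure Blocks (S : List α) (z : ℕ) (g d : ℕ → ℕ) (E : Finset ℕ) : Prop where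
  g0 : g 0 = 0
  gz : g z = S.length
  mono : Monotone g
  gE : ∀ k ≤ z, g k ∈ E
  hE : ∀ k < z, g (k + 1) - 1 ∈ E
  le : ∀ e ∈ E, e ≤ S.length
  d1 : ∀ k, g k + 1 < g (k + 1) → 1 ≤ d k ∧ d k ≤ g k
  copy : ∀ k, ∀ x, g k ≤ x → x + 1 < g (k + 1) → S[x - d k]? = S[x]?
  dE : ∀ k < z, g k + 1 < g (k + 1) → g k - d k ∈ E
  clos : ∀ k < z, ∀ e ∈ E, g k < e → e < g (k + 1) → g k - d k + (e - g k) % d k ∈ E

/-- the rank of an item -/
def rk (n : ℕ) (p : ℕ × ℕ) : ℕ := p.2 * (n + 1) + (n - p.1)

lemma rk_lt_right (n a b a' b' : ℕ) (h : b < b') : rk n (a, b) < rk n (a', b') := by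
  unfold rk
  simp only
  have : (b + 1) * (n + 1) ≤ b' * (n + 1) := Nat.mul_le_mul_right _ h
  nlinarith [Nat.sub_le n a]

lemma rk_lt_left (n a a' b : ℕ) (h : a < a') (h' : a' ≤ n) : rk n (a', b) < rk n (a, b) := by
  unfold rk
  simp only
  omega

lemma zs_append_power (S X : List α) (a b D : ℕ) (hD : 1 ≤ D) (hab : a + D ≤ b)
    (hb : b ≤ S.length) (h : ∀ x, a + D ≤ x → x < b → S[x - D]? = S[x]?) :
    zs (X ++ W S a (a + D) ++ W S (a + D) b) ≤ zs (X ++ W S a (a + D)) + 1 := by
  have l1 : (W S a (a + D)).length = D := by rw [W_length S a (a + D) (by omega)]; omega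
  have l2 : (W S a b).length = b - a := W_length S a b hb
  apply zs_append_copy _ _ D hD (by simp [l1])
  intro x hx1 hx2
  rw [List.append_assoc, W_append S a (a + D) b (by omega) hab] at hx2 ⊢
  simp only [List.length_append, l1, l2] at hx1 hx2
  rw [List.getElem?_append_right (by omega), List.getElem?_append_right (by omega)]
  rw [W_get S a b _ (by omega), W_get S a b _ (by omega)]
  have := h (a + (x - X.length)) (by omega) (by omega)
  rw [← this]
  congr 1
  omega

theorem item_bound (S : List α) (z : ℕ) (g d : ℕ → ℕ) (E : Finset ℕ) (H : Blocks S z g d E)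
    (I : Finset (ℕ × ℕ)) (hI : ∀ p, p ∈ I ↔ (p.1 ∈ E ∧ p.2 ∈ E ∧ p.1 < p.2)) :
    ∀ r, ∀ a b, (a, b) ∈ I → rk S.length (a, b) = r → ∀ M, r < M → ∀ X : List α,
      zs (X ++ W S a b) + 3 * cnt S I (rk S.length) M X ≤
        zs X + 1 + 3 * cnt S I (rk S.length) M (X ++ W S a b) := by
  intro r
  induction r using Nat.strong_induction_on with
  | _ r IH =>
  intro a b hab hr M hM X
  by_cases hin : W S a b <:+: X
  · have h1 := zs_append_infix X _ hin
    have h2 := cnt_mono S I (rk S.length) M X (W S a b)
    omega
  have hself : W S a b <:+: X ++ W S a b := ⟨X, [], by simp⟩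
  have hnew := cnt_new S I (rk S.length) M X (W S a b) (a, b) hab (by rw [hr]; exact hM) hin hself
  rw [hr] at hnew
  suffices hsuff : zs (X ++ W S a b) + 3 * cnt S I (rk S.length) r X ≤
      zs X + 4 + 3 * cnt S I (rk S.length) r (X ++ W S a b) by omega
  -- the step for one piece
  have hs : ∀ a' b', a' ∈ E → b' ∈ E → a' ≤ b' → rk S.length (a', b') < r → ∀ X' : List α,
      zs (X' ++ W S a' b') + 3 * cnt S I (rk S.length) r X' ≤
        zs X' + 1 + 3 * cnt S I (rk S.length) r (X' ++ W S a' b') := by
    intro a' b' ha' hb' hab' hrk X'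
    rcases Nat.lt_or_ge a' b' with h | h
    · exact IH _ hrk a' b' ((hI _).2 ⟨ha', hb', h⟩) rfl r hrk X'
    · have : a' = b' := le_antisymm hab' h
      subst this
      rw [W_self]
      simp
  obtain ⟨haE, hbE, hlt⟩ := (hI _).1 hab
  simp only at haE hbE hlt
  have hbn := H.le b hbE
  -- the block which contains `a`
  obtain ⟨k, hkz, hka, hka'⟩ : ∃ k, k < z ∧ g k ≤ a ∧ a < g (k + 1) := by
    have hex : ∃ k, a < g k := ⟨z, by rw [H.gz]; omega⟩
    classical
    have h1 := Nat.find_spec hex
    have h2 : Nat.find hex ≠ 0 := by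
      intro h
      rw [h, H.g0] at h1
      omega
    obtain ⟨k, hk⟩ := Nat.exists_eq_succ_of_ne_zero h2
    refine ⟨k, ?_, ?_, ?_⟩
    · have : Nat.find hex ≤ z := Nat.find_min' hex (by rw [H.gz]; omega)
      omega
    · by_contra hcon
      exact Nat.find_min hex (m := k) (by omega) (by omega)
    · rw [hk] at h1
      exact h1
  have hgE : g (k + 1) ∈ E := H.gE _ hkz
  have hsplit : ∀ β ∈ E, a < β → β < b →
      zs (X ++ W S a b) + 3 * cnt S I (rk S.length) r X ≤
      zs X + 4 + 3 * cnt S I (rk S.length) r (X ++ W S a b) := by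
    intro β hβ h1 h2
    have e1 := hs a β haE hβ h1.le (by rw [← hr]; exact rk_lt_right _ _ _ _ _ h2) X
    have e2 := hs β b hβ hbE h2.le
      (by rw [← hr]; exact rk_lt_left _ _ _ _ h1 (by omega)) (X ++ W S a β)
    rw [List.append_assoc, W_append S a β b h1.le h2.le] at e2
    omega
  rcases Nat.lt_or_ge (g (k + 1)) b with hb1 | hb1
  · exact hsplit _ hgE hka' hb1
  rcases Nat.lt_or_ge b (g (k + 1)) with hb2 | hb2
  · -- the copy case
    have hk2 : g k + 1 < g (k + 1) := by omega
    obtain ⟨hd1, hd2⟩ := H.d1 k hk2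
    have hcp := H.copy k
    have hdE := H.dE k hkz hk2
    have hGE : g k ∈ E := H.gE k hkz.le
    have hra : g k - d k + (a - g k) % d k ∈ E := by
      rcases Nat.lt_or_ge (g k) a with h | h
      · exact H.clos k hkz a haE h hka'
      · have : a - g k = 0 := by omega
        rw [this]
        simpa using hdE
    have hrb : g k - d k + (b - g k) % d k ∈ E := H.clos k hkz b hbE (by omega) hb2
    have hma := Nat.mod_lt (a - g k) (show d k > 0 by omega)
    have hmb := Nat.mod_lt (b - g k) (show d k > 0 by omega)
    have hda := Nat.div_add_mod (a - g k) (d k)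
    have hdb := Nat.div_add_mod (b - g k) (d k)
    set G := g k with hG
    set D := d k with hDd
    set ρa := (a - G) % D with hρa
    set ρb := (b - G) % D with hρb
    set qa := (a - G) / D with hqa
    set qb := (b - G) / D with hqb
    have hqq : qa ≤ qb := Nat.div_le_div_right (by omega)
    have hen : g (k + 1) - 1 ≤ S.length := (Nat.sub_le _ _).trans (H.le _ hgE)
    have hcp' : ∀ x, G ≤ x → x < g (k + 1) - 1 → S[x - D]? = S[x]? := fun x h1 h2 =>
      hcp x h1 (by omega)
    have hsh := W_shift S G (g (k + 1) - 1) D hd2 hen hcp'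
    have ea : G - D + ρa + (qa + 1) * D = a := by
      have : (qa + 1) * D = D * qa + D := by ring
      omega
    have eb : G - D + ρb + (qb + 1) * D = b := by
      have : (qb + 1) * D = D * qb + D := by ring
      omega
    rcases Nat.eq_or_lt_of_le hqq with hq | hq
    · -- both ends in the same period
      have hlt' : G - D + ρa < G - D + ρb := by
        rw [← hq] at eb
        omega
      have e1 := hsh (G - D + ρa) (G - D + ρb) (qa + 1) (by omega) hlt'.le (by
        rw [hq, eb]; omega)
      rw [ea] at e1
      rw [hq, eb] at e1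
      rw [e1]
      have := hs _ _ hra hrb hlt'.le (by rw [← hr]; exact rk_lt_right _ _ _ _ _ (by omega)) X
      omega
    · -- different periods
      obtain ⟨m, hm⟩ : ∃ m, qb = qa + 1 + m := ⟨qb - (qa + 1), by omega⟩
      have hc1 : G + (qa + 1) * D = a + (D - ρa) := by omega
      have hc2 : G + (qa + 1) * D + m * D + ρb = b := by
        have : (qb + 1) * D = (qa + 1) * D + m * D + D := by rw [hm]; ring
        omega
      set c1 := G + (qa + 1) * D with hc1d
      set c2 := c1 + m * D with hc2d
      have w1 : W S a c1 = W S (G - D + ρa) G := by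
        have := hsh (G - D + ρa) G (qa + 1) (by omega) (by omega) (by omega)
        rw [ea] at this
        exact this
      have w3 : W S c2 b = W S (G - D) (G - D + ρb) := by
        have := hsh (G - D) (G - D + ρb) (qb + 1) (by omega) (by omega) (by omega)
        rw [eb] at this
        rw [← this]
        congr 1
        omega
      have hw : W S a b = W S a c1 ++ W S c1 c2 ++ W S c2 b := by
        rw [W_append S a c1 c2 (by omega) (by omega), W_append S a c2 b (by omega) (by omega)]
      -- first piece
      have s1 := hs _ _ hra hGE (by omega)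
        (by rw [← hr]; exact rk_lt_right _ _ _ _ _ (by omega)) X
      rw [← w1] at s1
      -- middle piece
      have s2 : zs (X ++ W S a c1 ++ W S c1 c2) + 3 * cnt S I (rk S.length) r (X ++ W S a c1) ≤
          zs (X ++ W S a c1) + 2 +
            3 * cnt S I (rk S.length) r (X ++ W S a c1 ++ W S c1 c2) := by
        rcases Nat.eq_zero_or_pos m with hm0 | hm0
        · have : c2 = c1 := by rw [hc2d, hm0]; simp
          rw [this, W_self]
          simp
        · have hmD : D ≤ m * D := Nat.le_mul_of_pos_left D hm0
          have w2 : W S c1 (c1 + D) = W S (G - D) G := by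
            have := hsh (G - D) G (qa + 2) (by omega) (by omega) (by
              have : (qa + 2) * D = (qa + 1) * D + D := by ring
              omega)
            rw [← this]
            congr 1
            · have : (qa + 2) * D = (qa + 1) * D + D := by ring
              omega
            · have : (qa + 2) * D = (qa + 1) * D + D := by ring
              omega
          have t1 := hs _ _ hdE hGE (by omega)
            (by rw [← hr]; exact rk_lt_right _ _ _ _ _ (by omega)) (X ++ W S a c1)
          rw [← w2] at t1
          have t2 := zs_append_power S (X ++ W S a c1) c1 c2 D hd1 (by omega) (by omega) (by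
            intro x hx1 hx2
            exact hcp' x (by omega) (by omega))
          have t3 := cnt_mono S I (rk S.length) r (X ++ W S a c1 ++ W S c1 (c1 + D))
            (W S (c1 + D) c2)
          have t4 : X ++ W S a c1 ++ W S c1 (c1 + D) ++ W S (c1 + D) c2 =
              X ++ W S a c1 ++ W S c1 c2 := by
            rw [List.append_assoc (X ++ W S a c1), W_append S c1 (c1 + D) c2 (by omega) (by omega)]
          rw [t4] at t2 t3
          omega
      have s3 := hs _ _ hdE hrb (by omega)
        (by rw [← hr]; exact rk_lt_right _ _ _ _ _ (by omega)) (X ++ W S a c1 ++ W S c1 c2)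
      rw [← w3] at s3
      have hX : X ++ W S a b = X ++ W S a c1 ++ W S c1 c2 ++ W S c2 b := by
        rw [hw]; simp
      rw [hX]
      omega
  · have hbe : b = g (k + 1) := le_antisymm hb1 hb2
    rcases Nat.lt_or_ge a (g (k + 1) - 1) with h | h
    · exact hsplit _ (H.hE k hkz) h (by omega)
    · have hl : (W S a b).length = 1 := by rw [W_length S a b hbn]; omega
      obtain ⟨c, hc⟩ := List.length_eq_one_iff.1 hl
      have h1 := zs_append_single X c
      have h2 := cnt_mono S I (rk S.length) r X (W S a b)
      rw [hc] at h2 ⊢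
      omega

open Classical in
/-- one step of the closure -/
noncomputable def phi (g d : ℕ → ℕ) (e : ℕ) : ℕ :=
  if h : ∃ k, g k < e ∧ e < g (k + 1) then
    g h.choose - d h.choose + (e - g h.choose) % d h.choose
  else e

lemma phi_eq (g d : ℕ → ℕ) (hg : Monotone g) (k e : ℕ) (h1 : g k < e) (h2 : e < g (k + 1)) :
    phi g d e = g k - d k + (e - g k) % d k := by
  have h : ∃ k, g k < e ∧ e < g (k + 1) := ⟨k, h1, h2⟩
  unfold phi
  rw [dif_pos h]
  have hk : h.choose = k := by
    obtain ⟨a1, a2⟩ := h.choose_spec
    rcases Nat.lt_trichotomy h.choose k with hlt | heq | hlt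
    · have := hg (show h.choose + 1 ≤ k by omega)
      omega
    · exact heq
    · have := hg (show k + 1 ≤ h.choose by omega)
      omega
  rw [hk]

lemma phi_fix (g d : ℕ → ℕ) (e : ℕ) (h : ¬ ∃ k, g k < e ∧ e < g (k + 1)) : phi g d e = e := by
  unfold phi
  rw [dif_neg h]

lemma iter_phi (g d : ℕ → ℕ) (z n : ℕ) (hg : Monotone g) (gz : g z = n)
    (d1 : ∀ k, g k + 1 < g (k + 1) → 1 ≤ d k ∧ d k ≤ g k) (b : ℕ) (hb : b ≤ n) :
    ∀ t, t ≤ z → (phi g d ((phi g d)^[t] b) = (phi g d)^[t] b ∨ (phi g d)^[t] b ≤ g (z - t)) ∧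
      (phi g d)^[t] b ≤ n := by
  intro t
  induction t with
  | zero => intro _; simp only [Function.iterate_zero, id_eq, Nat.sub_zero]; omega
  | succ t ih =>
    intro ht
    obtain ⟨h1, h2⟩ := ih (by omega)
    rw [Function.iterate_succ_apply']
    set e := (phi g d)^[t] b with he
    by_cases h : ∃ k, g k < e ∧ e < g (k + 1)
    · obtain ⟨k, hk1, hk2⟩ := h
      have hphi := phi_eq g d hg k e hk1 hk2
      obtain ⟨dd1, dd2⟩ := d1 k (by omega)
      have hmod := Nat.mod_lt (e - g k) (show d k > 0 by omega)
      have hlt : phi g d e < g k := by rw [hphi]; omega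
      refine ⟨Or.inr ?_, by omega⟩
      rcases h1 with h1 | h1
      · omega
      · have hkz : k < z - t := by
          by_contra hcon
          have := hg (show z - t ≤ k by omega)
          omega
        have := hg (show k ≤ z - (t + 1) by omega)
        omega
    · have := phi_fix g d e h
      rw [this]
      exact ⟨Or.inl this, h2⟩

theorem exists_blocks (S : List α) (i : ℕ) (hi : i ≤ S.length) :
    ∃ (g d : ℕ → ℕ) (E : Finset ℕ), Blocks S (zs S) g d E ∧ i ∈ E ∧
      E.card ≤ (3 * zs S + 2) * (zs S + 1) := by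
  have hex : ∀ k, ∃ dk, pos S k + 1 < pos S (k + 1) → (1 ≤ dk ∧ dk ≤ pos S k ∧
      ∀ x, pos S k ≤ x → x + 1 < pos S (k + 1) → S[x - dk]? = S[x]?) := by
    intro k
    by_cases h : pos S k + 1 < pos S (k + 1)
    · have hk : pos S (k + 1) = pos S k + factorLength S (pos S k) := rfl
      obtain ⟨j, hj, hjt⟩ := occ_of_lt S (pos S k) (factorLength S (pos S k) - 1) (by omega)
        (by omega)
      refine ⟨pos S k - j, fun _ => ⟨by omega, by omega, ?_⟩⟩
      intro x hx1 hx2
      have := hjt (x - pos S k) (by omega)
      have e1 : pos S k + (x - pos S k) = x := by omega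
      rw [e1] at this
      rw [← this]
      congr 1
      omega
    · exact ⟨0, fun h' => absurd h' h⟩
  choose d hd using hex
  set z := zs S with hz
  set g := pos S with hg
  have gm : Monotone g := pos_mono S
  have g0 : g 0 = 0 := rfl
  have gz : g z = S.length := pos_zs S
  have d1 : ∀ k, g k + 1 < g (k + 1) → 1 ≤ d k ∧ d k ≤ g k := fun k h =>
    ⟨(hd k h).1, (hd k h).2.1⟩
  have hgle : ∀ k, g k ≤ S.length := pos_le S
  -- the starting set
  let B : Finset ℕ := ((Finset.range (z + 1)).image g ∪ (Finset.range z).image fun k => g (k + 1) - 1) ∪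
    ((Finset.range z).image fun k => g k - d k) ∪ {i}
  have hBcard : B.card ≤ 3 * z + 2 := by
    have c1 := Finset.card_image_le (s := Finset.range (z + 1)) (f := g)
    have c2 := Finset.card_image_le (s := Finset.range z) (f := fun k => g (k + 1) - 1)
    have c3 := Finset.card_image_le (s := Finset.range z) (f := fun k => g k - d k)
    simp only [Finset.card_range] at c1 c2 c3
    have u1 := Finset.card_union_le ((Finset.range (z + 1)).image g)
      ((Finset.range z).image fun k => g (k + 1) - 1)
    have u2 := Finset.card_union_le ((Finset.range (z + 1)).image g ∪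
      (Finset.range z).image fun k => g (k + 1) - 1) ((Finset.range z).image fun k => g k - d k)
    have u3 := Finset.card_union_le (((Finset.range (z + 1)).image g ∪
      (Finset.range z).image fun k => g (k + 1) - 1) ∪ (Finset.range z).image fun k => g k - d k)
      ({i} : Finset ℕ)
    simp only [Finset.card_singleton] at u3
    show (((Finset.range (z + 1)).image g ∪ (Finset.range z).image fun k => g (k + 1) - 1) ∪
      ((Finset.range z).image fun k => g k - d k) ∪ {i}).card ≤ _
    omega
  have hBle : ∀ b ∈ B, b ≤ S.length := by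
    intro b hb
    simp only [B, Finset.mem_union, Finset.mem_image, Finset.mem_range, Finset.mem_singleton] at hb
    rcases hb with ((⟨k, _, rfl⟩ | ⟨k, _, rfl⟩) | ⟨k, _, rfl⟩) | rfl
    · exact hgle k
    · exact (Nat.sub_le _ _).trans (hgle _)
    · exact (Nat.sub_le _ _).trans (hgle _)
    · exact hi
  let E : Finset ℕ := (B ×ˢ Finset.range (z + 1)).image fun p => (phi g d)^[p.2] p.1
  have hBE : ∀ b ∈ B, b ∈ E := by
    intro b hb
    simp only [E, Finset.mem_image, Finset.mem_product, Finset.mem_range, Prod.exists]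
    exact ⟨b, 0, ⟨hb, by omega⟩, rfl⟩
  have hit := iter_phi g d z S.length gm gz d1
  have hEphi : ∀ e ∈ E, phi g d e ∈ E := by
    intro e he
    simp only [E, Finset.mem_image, Finset.mem_product, Finset.mem_range, Prod.exists] at he ⊢
    obtain ⟨b, t, ⟨hb, ht⟩, rfl⟩ := he
    rcases Nat.lt_or_ge t z with htz | htz
    · exact ⟨b, t + 1, ⟨hb, by omega⟩, by rw [Function.iterate_succ_apply']⟩
    · have : t = z := by omega
      subst this
      refine ⟨b, z, ⟨hb, by omega⟩, ?_⟩
      obtain ⟨h1, h2⟩ := hit b (hBle b hb) z le_rfl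
      rcases h1 with h1 | h1
      · exact h1.symm
      · rw [Nat.sub_self, g0] at h1
        symm
        apply phi_fix
        rintro ⟨k, hk1, hk2⟩
        omega
  refine ⟨g, d, E, ⟨g0, gz, gm, ?_, ?_, ?_, d1, ?_, ?_, ?_⟩, ?_, ?_⟩
  · intro k hk
    apply hBE
    simp only [B, Finset.mem_union, Finset.mem_image, Finset.mem_range, Finset.mem_singleton]
    exact Or.inl (Or.inl (Or.inl ⟨k, by omega, rfl⟩))
  · intro k hk
    apply hBE
    simp only [B, Finset.mem_union, Finset.mem_image, Finset.mem_range, Finset.mem_singleton]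
    exact Or.inl (Or.inl (Or.inr ⟨k, by omega, rfl⟩))
  · intro e he
    simp only [E, Finset.mem_image, Finset.mem_product, Finset.mem_range, Prod.exists] at he
    obtain ⟨b, t, ⟨hb, ht⟩, rfl⟩ := he
    exact (hit b (hBle b hb) t (by omega)).2
  · intro k x h1 h2
    exact (hd k (by omega)).2.2 x h1 h2
  · intro k hk _
    apply hBE
    simp only [B, Finset.mem_union, Finset.mem_image, Finset.mem_range, Finset.mem_singleton]
    exact Or.inl (Or.inr ⟨k, by omega, rfl⟩)
  · intro k hk e he h1 h2
    have := hEphi e he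
    rwa [phi_eq g d gm k e h1 h2] at this
  · apply hBE
    exact Finset.mem_union_right _ (Finset.mem_singleton_self i)
  · refine Finset.card_image_le.trans ?_
    rw [Finset.card_product, Finset.card_range]
    exact Nat.mul_le_mul_right _ hBcard

end main

/-- **Main theorem.** The number of factors of the self-referencing LZ77 factorization of a suffix
of a word `S` is at most `301` times the fourth power of the number of factors of `S`. -/
theorem result : ∀ (α : Type u) (S : List α) (i : ℕ), zs (S.drop i) ≤ 301 * zs S ^ 4 := by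
  intro α S i
  rcases Nat.lt_or_ge i S.length with hi | hi
  swap
  · rw [List.drop_eq_nil_of_le hi, zs_nil]
    omega
  obtain ⟨g, d, E, H, hiE, hcard⟩ := exists_blocks S i hi.le
  have hn : S.length ∈ E := by
    have := H.gE _ le_rfl
    rwa [H.gz] at this
  set z := zs S with hz
  have hz1 : 1 ≤ z := by
    by_contra hcon
    have h0 : z = 0 := by omega
    have := H.gz
    rw [h0, H.g0] at this
    omega
  classical
  let I : Finset (ℕ × ℕ) := (E ×ˢ E).filter fun p => p.1 < p.2
  have hI : ∀ p, p ∈ I ↔ (p.1 ∈ E ∧ p.2 ∈ E ∧ p.1 < p.2) := by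
    intro p
    simp only [I, Finset.mem_filter, Finset.mem_product, and_assoc]
  have hIc : I.card ≤ E.card * E.card := by
    refine (Finset.card_filter_le _ _).trans ?_
    rw [Finset.card_product]
  have main := item_bound S z g d E H I hI _ i S.length ((hI _).2 ⟨hiE, hn, hi⟩) rfl _
    (Nat.lt_succ_self _) []
  rw [zs_nil, List.nil_append] at main
  have hW : W S i S.length = S.drop i := by
    unfold W
    apply List.take_of_length_le
    simp
  rw [hW] at main
  have hc : cnt S I (rk S.length) (rk S.length (i, S.length)).succ (S.drop i) ≤ I.card :=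
    Finset.card_filter_le _ _
  have hE : E.card ≤ 10 * z ^ 2 := by
    refine hcard.trans ?_
    nlinarith
  have hEE : E.card * E.card ≤ 10 * z ^ 2 * (10 * z ^ 2) := Nat.mul_le_mul hE hE
  have hz4 : 1 ≤ z ^ 4 := Nat.one_le_pow _ _ hz1
  have e4 : 10 * z ^ 2 * (10 * z ^ 2) = 100 * z ^ 4 := by ring
  omega

end Pool.Agent.Results.MP_37e11d_lc.SuffixPolynomial
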